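import Pool.Agent.Q27.TrP.Word

/-!
# The maximal support size of trace polynomials is of cubic order

Words in the letters `a^{±1}, b^{±1}` are lists over `Fin 2 × Bool`, where `(0, true) = a`,
`(0, false) = a⁻¹`, `(1, true) = b`, `(1, false) = b⁻¹`, as in Mathlib's `FreeGroup`. The polynomial
ring `ℤ[x, y, z]` is `MvPolynomial (Fin 3) ℤ`.
-/

set_option autoImplicit false

namespace Pool.Agent.Results.MP_81f2fa_al.CubicSupport

/-- `SL(2, ℂ)`. -/
abbrev SL2 := Matrix.SpecialLinearGroup (Fin 2) ℂ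

/-- The value of a letter. -/
noncomputable def letter (A B : SL2) (l : Fin 2 × Bool) : SL2 :=
  if l.1 = 0 then (if l.2 then A else A⁻¹) else (if l.2 then B else B⁻¹)

/-- The value `w(A, B)` of a word. -/
noncomputable def ev (A B : SL2) (w : List (Fin 2 × Bool)) : SL2 := (w.map (letter A B)).prod

/-- `tr w(A, B) = f (tr A, tr B, tr AB)` for all `A, B ∈ SL(2, ℂ)`. -/
def IsTracePolynomial (w : List (Fin 2 × Bool)) (f : MvPolynomial (Fin 3) ℤ) : Prop :=
  ∀ A B : SL2, (ev A B w).1.trace =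
    MvPolynomial.aeval ![A.1.trace, B.1.trace, (A * B).1.trace] f

open Classical in
/-- The trace polynomial `f_w` (it exists and is unique, see the theorem). -/
noncomputable def tracePolynomial (w : List (Fin 2 × Bool)) : MvPolynomial (Fin 3) ℤ :=
  if h : ∃ f, IsTracePolynomial w f then h.choose else 0

/-- The number `N(w)` of monomials with nonzero coefficient in `f_w`. -/
noncomputable def N (w : List (Fin 2 × Bool)) : ℕ := (tracePolynomial w).support.card

/-- The values `N(w)` for cyclically reduced words of length `n`. -/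
def values (n : ℕ) : Set ℕ :=
  {k | ∃ w : List (Fin 2 × Bool), FreeGroup.IsCyclicallyReduced w ∧ w.length = n ∧ N w = k}

/-- `M(n)`. -/
noncomputable def M (n : ℕ) : ℕ := sSup (values n)

/-! ### Proofs -/

theorem exists_unique_trace (w : List (Fin 2 × Bool)) : ∃! f, IsTracePolynomial w f := by
  obtain ⟨f, hf, -⟩ := Q27.TrP.exists_trace w
  exact ⟨f, hf, fun g hg => Q27.TrP.trace_unique hg hf⟩

theorem tracePolynomial_eq {w : List (Fin 2 × Bool)} {f : MvPolynomial (Fin 3) ℤ}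
    (hf : IsTracePolynomial w f) : tracePolynomial w = f := by
  unfold tracePolynomial
  have h : ∃ f, IsTracePolynomial w f := ⟨f, hf⟩
  rw [dif_pos h]
  exact Q27.TrP.trace_unique h.choose_spec hf

theorem N_le (w : List (Fin 2 × Bool)) : N w ≤ (w.length + 2) ^ 3 := by
  obtain ⟨f, hf, hd⟩ := Q27.TrP.exists_trace w
  unfold N
  rw [tracePolynomial_eq hf]
  exact Q27.TrP.card_support_le hd

theorem bdd (n : ℕ) : ∀ k ∈ values n, k ≤ (n + 2) ^ 3 := by
  rintro k ⟨w, -, rfl, rfl⟩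
  exact N_le w

theorem le_M (n q : ℕ) (hq : 8 * q ≤ n) (hq1 : 2 ≤ q) : q ^ 3 ≤ M n := by
  -- `n = (a + 3) + (b + 3) + 2 (k + 2)`
  obtain ⟨a, b, k, ha, hb, hk, hn⟩ : ∃ a b k : ℕ, 2 * q ≤ a + 4 ∧ 2 * q ≤ b + 4 ∧
      2 * q ≤ k + 4 ∧ (a + 3) + (b + 3) + 2 * (k + 2) = n := by
    refine ⟨2 * q - 2, 2 * q - 3 + (n + 1) % 2, (n - (2 * q + 1) -
      (2 * q + (n + 1) % 2)) / 2 - 2, by omega, by omega, by omega, by omega⟩
  have h1 := Q27.TrP.isTrace_F a b k
  have h2 := Q27.TrP.card_support_F ha hb hk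
  refine h2.trans (le_csSup ⟨_, bdd n⟩ ⟨Q27.TrP.word (a + 3) (b + 3) (k + 2),
    Q27.TrP.isCyclicallyReduced_of_positive (Q27.TrP.positive_word _ _ _), ?_, ?_⟩)
  · rw [Q27.TrP.length_word, hn]
  · unfold N
    rw [tracePolynomial_eq h1]

/-- **Q1.** `M(n) = Θ(n³)`. The first part is the theorem of Fricke and Vogt, which shows that
`f_w` is well defined; the second part says that the supremum in the definition of `M(n)` is a
maximum. -/
theorem result :
    (∀ w : List (Fin 2 × Bool), ∃! f, IsTracePolynomial w f) ∧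
    (∀ n, M n ∈ values n) ∧
    (∀ n, M n ≤ (n + 2) ^ 3) ∧
    ∃ c : ℝ, 0 < c ∧ ∀ n : ℕ, 16 ≤ n → c * (n : ℝ) ^ 3 ≤ (M n : ℝ) := by
  refine ⟨exists_unique_trace, ?_, fun n => csSup_le' (bdd n), 1 / 4096, by norm_num, ?_⟩
  · intro n
    refine Nat.sSup_mem ⟨_, List.replicate n (0, true), ?_, List.length_replicate, rfl⟩
      ⟨_, bdd n⟩
    apply Q27.TrP.isCyclicallyReduced_of_positive
    intro l hl
    rw [List.eq_of_mem_replicate hl]
  · intro n hn
    have h1 := le_M n (n / 8) (by omega) (by omega)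
    have h2 : n ≤ 16 * (n / 8) := by omega
    have h3 : (n : ℝ) ≤ 16 * ((n / 8 : ℕ) : ℝ) := by exact_mod_cast h2
    have h4 : (((n / 8 : ℕ) : ℝ)) ^ 3 ≤ (M n : ℝ) := by exact_mod_cast h1
    have h5 : (n : ℝ) ^ 3 ≤ (16 * ((n / 8 : ℕ) : ℝ)) ^ 3 :=
      pow_le_pow_left₀ (Nat.cast_nonneg _) h3 3
    rw [mul_pow] at h5
    linarith

end Pool.Agent.Results.MP_81f2fa_al.CubicSupport
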